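import Pool.Agent.Helper47.EX.Defs

/-!
# EX-6 upper_main, from the statements of EX-1 (equi), EX-3 (EE_continuousOn, EE_nonneg, avg_EE)
and EX-5 (block_upper) as hypotheses
-/

set_option autoImplicit false

namespace Pool.Agent.Helper9.EX

open Pool.Agent.Helper36.DC Pool.Agent.Helper47.EX Finset

/-- statement of `equi` -/
def EquiSt : Prop :=
  ∀ (m : ℕ) (_ : 1 ≤ m) (f : ℝ → ℝ) (_ : ContinuousOn f (Set.Icc (1 / 3) 1))
    (_ : ∀ θ ∈ Set.Icc (1 / 3 : ℝ) 1, 0 ≤ f θ) (ε : ℝ) (_ : 0 < ε),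
    ∃ n0 : ℕ, ∀ n : ℕ, n0 ≤ n →
      ∑ i ∈ range n, f (th (i * m)) ≤ n * (30 * (∫ θ in (1 / 3 : ℝ)..1, f θ) + ε)

/-- statement of `EE_continuousOn` -/
def ContSt : Prop :=
  ∀ (p q : ℕ → ℝ) (_ : Par p) (_ : Par q) (m w : ℕ),
    ContinuousOn (EE p q m w) (Set.Icc (1 / 3) 1)

/-- statement of `EE_nonneg` -/
def NonnegSt : Prop :=
  ∀ (p q : ℕ → ℝ) (_ : Par p) (_ : Par q) (m w : ℕ) (θ : ℝ), 0 ≤ EE p q m w θ

/-- statement of `avg_EE` -/
def AvgSt : Prop :=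
  ∃ C : ℝ, 1 ≤ C ∧ ∀ (p q : ℕ → ℝ), Par p → Par q → ∀ m w : ℕ,
    2 ^ m ≤ 3 ^ (w + 1) → ∫ θ in (1 / 3 : ℝ)..1, EE p q m w θ ≤ C

/-- statement of `block_upper` -/
def BlockSt : Prop :=
  ∀ (x : ℝ) (_ : 1 ≤ x) (_ : x ≤ 13 / 10) (g h a b m w : ℕ)
    (_ : 3 ^ (h + b) ≤ 2 ^ (g + a)) (B : ℝ) (_ : 0 ≤ B)
    (_ : ∀ Y Z, SOv x g h a b Y Z ≤ B) (Y Z : ℕ),
    SOv x g h (a + m) (b + w) Y Z ≤
      5 * EE (fun _ => x) (fun _ => x) m w ((3 : ℝ) ^ (h + b) / 2 ^ (g + a))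
        * ((1 + x) ^ m * (1 + x⁻¹ + x⁻¹ ^ 2) ^ w / 2 ^ m) * B

theorem three_pow_hh_le (g : ℕ) : 3 ^ hh g ≤ 2 ^ g :=
  Nat.pow_log_le_self 3 (by positivity)

theorem lt_three_pow_hh (g : ℕ) : 2 ^ g < 3 ^ (hh g + 1) :=
  Nat.lt_pow_succ_log_self (by norm_num) _

theorem hh_zero : hh 0 = 0 := by simp [hh]

theorem hh_mono {a b : ℕ} (h : a ≤ b) : hh a ≤ hh b :=
  Nat.log_mono_right (Nat.pow_le_pow_right (by norm_num) h)

theorem hh_add_ge (g m : ℕ) : hh g + hh m ≤ hh (g + m) := by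
  apply Nat.le_log_of_pow_le (by norm_num)
  rw [pow_add, pow_add]
  exact Nat.mul_le_mul (three_pow_hh_le g) (three_pow_hh_le m)

theorem hh_add_le (g m : ℕ) : hh (g + m) ≤ hh g + hh m + 1 := by
  have h : hh (g + m) < hh g + hh m + 2 := by
    apply Nat.log_lt_of_lt_pow (by positivity)
    have h1 := lt_three_pow_hh g
    have h2 := lt_three_pow_hh m
    calc 2 ^ (g + m) = 2 ^ g * 2 ^ m := pow_add _ _ _
      _ < 3 ^ (hh g + 1) * 3 ^ (hh m + 1) := Nat.mul_lt_mul'' h1 h2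
      _ = 3 ^ (hh g + hh m + 2) := by rw [← pow_add]; ring_nf
  omega

theorem par_const {x : ℝ} (hx : 1 ≤ x) (hx1 : x ≤ 13 / 10) : Par (fun _ => x) := fun _ => ⟨hx, hx1⟩

/-- one factor of the product -/
noncomputable def fac (x : ℝ) (m j : ℕ) : ℝ :=
  EE (fun _ => x) (fun _ => x) m (hh ((j + 1) * m) - hh (j * m)) (th (j * m))

theorem fac_nonneg (EE_nonneg : NonnegSt) {x : ℝ} (hx : 1 ≤ x) (hx1 : x ≤ 13 / 10) (m j : ℕ) : 0 ≤ fac x m j :=
  EE_nonneg _ _ (par_const hx hx1) (par_const hx hx1) _ _ _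

theorem block_prod (EE_nonneg : NonnegSt) (block_upper : BlockSt) (x : ℝ) (hx : 1 ≤ x) (hx1 : x ≤ 13 / 10) (m n1 k : ℕ) : ∀ Y Z : ℕ,
    SOv x (n1 * m) (hh (n1 * m)) (k * m) (hh ((n1 + k) * m) - hh (n1 * m)) Y Z ≤
      ∏ i ∈ range k, (5 * fac x m (n1 + i) *
        ((1 + x) ^ m * (1 + x⁻¹ + x⁻¹ ^ 2) ^ (hh ((n1 + i + 1) * m) - hh ((n1 + i) * m)) / 2 ^ m)) := by
  induction k with
  | zero =>
    intro Y Z
    simp only [zero_mul, add_zero, Nat.sub_self, range_zero, prod_empty, SOv, pow_zero, one_mul,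
      range_one, sum_singleton]
    split_ifs
    · have hx0 : 0 < x := by linarith
      simp [s]
    · norm_num
  | succ k ih =>
    intro Y Z
    have hx0 : 0 < x := by linarith
    have hm1 : hh (n1 * m) ≤ hh ((n1 + k) * m) := hh_mono (Nat.mul_le_mul_right _ (by omega))
    have hm2 : hh ((n1 + k) * m) ≤ hh ((n1 + k + 1) * m) :=
      hh_mono (Nat.mul_le_mul_right _ (by omega))
    have e1 : hh (n1 * m) + (hh ((n1 + k) * m) - hh (n1 * m)) = hh ((n1 + k) * m) := by omega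
    have e2 : n1 * m + k * m = (n1 + k) * m := by ring
    have e3 : (hh ((n1 + k) * m) - hh (n1 * m)) + (hh ((n1 + k + 1) * m) - hh ((n1 + k) * m)) =
        hh ((n1 + (k + 1)) * m) - hh (n1 * m) := by
      have : n1 + (k + 1) = n1 + k + 1 := by ring
      rw [this]; omega
    have e4 : k * m + m = (k + 1) * m := by ring
    have hB0 : (0 : ℝ) ≤ ∏ i ∈ range k, (5 * fac x m (n1 + i) *
        ((1 + x) ^ m * (1 + x⁻¹ + x⁻¹ ^ 2) ^ (hh ((n1 + i + 1) * m) - hh ((n1 + i) * m)) / 2 ^ m)) := by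
      apply prod_nonneg
      intro i _
      have := fac_nonneg EE_nonneg hx hx1 m (n1 + i)
      positivity
    have h := block_upper x hx hx1 (n1 * m) (hh (n1 * m)) (k * m)
      (hh ((n1 + k) * m) - hh (n1 * m)) m (hh ((n1 + k + 1) * m) - hh ((n1 + k) * m))
      (by rw [e1, e2]; exact three_pow_hh_le _) _ hB0 ih Y Z
    rw [e1, e2, e3, e4] at h
    refine h.trans (le_of_eq ?_)
    rw [prod_range_succ, fac, th]
    ring

theorem prod_pow (P Q : ℝ) (m n1 k : ℕ) :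
    ∏ i ∈ range k, (P ^ m * Q ^ (hh ((n1 + i + 1) * m) - hh ((n1 + i) * m)) / 2 ^ m) =
      (P / 2) ^ (k * m) * Q ^ (hh ((n1 + k) * m) - hh (n1 * m)) := by
  induction k with
  | zero => simp
  | succ k ih =>
    have hm1 : hh (n1 * m) ≤ hh ((n1 + k) * m) := hh_mono (Nat.mul_le_mul_right _ (by omega))
    have hm2 : hh ((n1 + k) * m) ≤ hh ((n1 + k + 1) * m) :=
      hh_mono (Nat.mul_le_mul_right _ (by omega))
    have e3 : hh ((n1 + (k + 1)) * m) - hh (n1 * m) =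
        (hh ((n1 + k) * m) - hh (n1 * m)) + (hh ((n1 + k + 1) * m) - hh ((n1 + k) * m)) := by
      have : n1 + (k + 1) = n1 + k + 1 := by ring
      rw [this]; omega
    have e5 : (k + 1) * m = k * m + m := by ring
    rw [prod_range_succ, ih, e3, e5, pow_add (P / 2), pow_add Q, div_pow P 2 m]
    ring

theorem exp_part (x : ℝ) (hx : 1 ≤ x) (m n1 k : ℕ) :
    ((1 + x) / 2) ^ (k * m) * (1 + x⁻¹ + x⁻¹ ^ 2) ^ (hh ((n1 + k) * m) - hh (n1 * m)) ≤
      3 * (2 : ℝ) ^ (((k * m : ℕ) : ℝ) * H x) := by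
  have hx0 : 0 < x := by linarith
  have hP : 0 < 1 + x := by linarith
  have hinv : 0 < x⁻¹ := by positivity
  have hinv1 : x⁻¹ ≤ 1 := inv_le_one_of_one_le₀ hx
  set Q : ℝ := 1 + x⁻¹ + x⁻¹ ^ 2 with hQ
  have hQ1 : 1 ≤ Q := by rw [hQ]; nlinarith
  have hQ3 : Q ≤ 3 := by rw [hQ]; nlinarith
  have hQ0 : 0 < Q := by linarith
  have hl2 : 0 < Real.log 2 := Real.log_pos (by norm_num)
  have hl3 : 0 < Real.log 3 := Real.log_pos (by norm_num)
  have hlQ : 0 ≤ Real.log Q := Real.log_nonneg hQ1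
  have hmon : hh (n1 * m) ≤ hh ((n1 + k) * m) := hh_mono (Nat.mul_le_mul_right _ (by omega))
  -- bound of the exponent
  have hb : ((hh ((n1 + k) * m) - hh (n1 * m) : ℕ) : ℝ) * Real.log 3 ≤
      ((k * m : ℕ) : ℝ) * Real.log 2 + Real.log 3 := by
    have h1 : ((hh ((n1 + k) * m) : ℕ) : ℝ) * Real.log 3 ≤ (((n1 + k) * m : ℕ) : ℝ) * Real.log 2 := by
      rw [← Real.log_pow, ← Real.log_pow]
      apply Real.log_le_log (by positivity)
      exact_mod_cast three_pow_hh_le ((n1 + k) * m)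
    have h2 : ((n1 * m : ℕ) : ℝ) * Real.log 2 ≤ ((hh (n1 * m) + 1 : ℕ) : ℝ) * Real.log 3 := by
      rw [← Real.log_pow, ← Real.log_pow]
      apply Real.log_le_log (by positivity)
      exact_mod_cast (lt_three_pow_hh (n1 * m)).le
    rw [Nat.cast_sub hmon]
    push_cast at h1 h2 ⊢
    nlinarith
  have hQb : Q ^ (hh ((n1 + k) * m) - hh (n1 * m)) ≤
      Q * Real.exp (((k * m : ℕ) : ℝ) * Real.log 2 / Real.log 3 * Real.log Q) := by
    have h3 : ((hh ((n1 + k) * m) - hh (n1 * m) : ℕ) : ℝ) ≤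
        ((k * m : ℕ) : ℝ) * Real.log 2 / Real.log 3 + 1 := by
      rw [div_add_one hl3.ne', le_div_iff₀ hl3]
      exact hb
    calc Q ^ (hh ((n1 + k) * m) - hh (n1 * m))
        = Real.exp (((hh ((n1 + k) * m) - hh (n1 * m) : ℕ) : ℝ) * Real.log Q) := by
          rw [← Real.log_pow, Real.exp_log (by positivity)]
      _ ≤ Real.exp ((((k * m : ℕ) : ℝ) * Real.log 2 / Real.log 3 + 1) * Real.log Q) := by
          apply Real.exp_le_exp.mpr
          exact mul_le_mul_of_nonneg_right h3 hlQ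
      _ = Q * Real.exp (((k * m : ℕ) : ℝ) * Real.log 2 / Real.log 3 * Real.log Q) := by
          rw [add_mul, one_mul, Real.exp_add, Real.exp_log hQ0, mul_comm]
  have h2H : (2 : ℝ) ^ (((k * m : ℕ) : ℝ) * H x) = ((1 + x) / 2) ^ (k * m) *
      Real.exp (((k * m : ℕ) : ℝ) * Real.log 2 / Real.log 3 * Real.log Q) := by
    rw [Real.rpow_def_of_pos (by norm_num : (0 : ℝ) < 2)]
    have h4 : ((1 + x) / 2) ^ (k * m) = Real.exp (((k * m : ℕ) : ℝ) * (Real.log (1 + x) - Real.log 2)) := by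
      rw [← Real.log_div hP.ne' (by norm_num), ← Real.log_pow, Real.exp_log (by positivity)]
    rw [h4, ← Real.exp_add]
    congr 1
    rw [H, ← hQ]
    field_simp
    ring
  rw [h2H]
  have hpos : (0 : ℝ) ≤ ((1 + x) / 2) ^ (k * m) := by positivity
  calc ((1 + x) / 2) ^ (k * m) * Q ^ (hh ((n1 + k) * m) - hh (n1 * m))
      ≤ ((1 + x) / 2) ^ (k * m) *
        (Q * Real.exp (((k * m : ℕ) : ℝ) * Real.log 2 / Real.log 3 * Real.log Q)) :=
        mul_le_mul_of_nonneg_left hQb hpos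
    _ ≤ ((1 + x) / 2) ^ (k * m) *
        (3 * Real.exp (((k * m : ℕ) : ℝ) * Real.log 2 / Real.log 3 * Real.log Q)) := by
        apply mul_le_mul_of_nonneg_left _ hpos
        exact mul_le_mul_of_nonneg_right hQ3 (Real.exp_pos _).le
    _ = _ := by ring

/-- AM-GM -/
theorem prod_le_of_sum (N : ℕ) (a : ℕ → ℝ) (ha : ∀ i, 0 ≤ a i) (A : ℝ) (hA : 0 < A)
    (h : ∑ i ∈ range N, a i ≤ N * A) : ∏ i ∈ range N, a i ≤ A ^ N := by
  have h1 : ∏ i ∈ range N, (a i / A) ≤ ∏ i ∈ range N, Real.exp (a i / A - 1) := by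
    apply prod_le_prod
    · intro i _; exact div_nonneg (ha i) hA.le
    · intro i _
      have := Real.add_one_le_exp (a i / A - 1)
      linarith
  rw [← Real.exp_sum] at h1
  have h2 : ∑ i ∈ range N, (a i / A - 1) ≤ 0 := by
    rw [sum_sub_distrib, ← sum_div]
    simp only [sum_const, card_range, nsmul_eq_mul, mul_one]
    rw [sub_nonpos, div_le_iff₀ hA]
    exact h
  have h3 : ∏ i ∈ range N, (a i / A) ≤ 1 := by
    exact h1.trans ((Real.exp_le_exp.mpr h2).trans (le_of_eq Real.exp_zero))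
  rw [prod_div_distrib, prod_const, card_range, div_le_one (by positivity)] at h3
  exact h3

theorem upper_main_of (equi : EquiSt) (EE_continuousOn : ContSt) (EE_nonneg : NonnegSt)
    (avg_EE : AvgSt) (block_upper : BlockSt) (x : ℝ) (hx : 1 ≤ x) (hx1 : x ≤ 13 / 10) :
    ∃ C : ℝ, 1 ≤ C ∧ ∀ m : ℕ, 1 ≤ m → ∃ n0 : ℕ, ∀ n : ℕ, n0 ≤ n → ∀ n1 : ℕ, 2 * n1 ≤ n →
      ∀ Y Z : ℕ,
        SOv x (n1 * m) (hh (n1 * m)) ((n - n1) * m) (hh (n * m) - hh (n1 * m)) Y Z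
          ≤ C ^ n * (2 : ℝ) ^ ((((n - n1) * m : ℕ) : ℝ) * H x) := by
  obtain ⟨C1, hC1, hav⟩ := avg_EE
  have hpar := par_const hx hx1
  obtain ⟨A, hA⟩ : ∃ A : ℝ, A = 10 * (60 * C1 + 1) := ⟨_, rfl⟩
  have hA1 : 1 ≤ A := by rw [hA]; nlinarith
  refine ⟨3 * A, by linarith, ?_⟩
  intro m hm
  -- the function f
  set f : ℝ → ℝ := fun θ => EE (fun _ => x) (fun _ => x) m (hh m) θ +
    EE (fun _ => x) (fun _ => x) m (hh m + 1) θ with hf
  have hc1 := EE_continuousOn (fun _ => x) (fun _ => x) hpar hpar m (hh m)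
  have hc2 := EE_continuousOn (fun _ => x) (fun _ => x) hpar hpar m (hh m + 1)
  have hf0 : ∀ θ, 0 ≤ f θ := fun θ =>
    add_nonneg (EE_nonneg _ _ hpar hpar _ _ _) (EE_nonneg _ _ hpar hpar _ _ _)
  obtain ⟨n0, hn0⟩ := equi m hm f (hc1.add hc2) (fun θ _ => hf0 θ) 1 one_pos
  have hint : ∫ θ in (1 / 3 : ℝ)..1, f θ ≤ 2 * C1 := by
    have h13 : (1 / 3 : ℝ) ≤ 1 := by norm_num
    rw [hf, intervalIntegral.integral_add (hc1.intervalIntegrable_of_Icc h13)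
      (hc2.intervalIntegrable_of_Icc h13)]
    have h1 := hav (fun _ => x) (fun _ => x) hpar hpar m (hh m) (lt_three_pow_hh m).le
    have h2 := hav (fun _ => x) (fun _ => x) hpar hpar m (hh m + 1)
      ((lt_three_pow_hh m).le.trans (Nat.pow_le_pow_right (by norm_num) (by omega)))
    linarith
  refine ⟨max n0 1, ?_⟩
  intro n hn n1 hn1 Y Z
  have hnn0 : n0 ≤ n := (le_max_left _ _).trans hn
  have hn1' : 1 ≤ n := (le_max_right _ _).trans hn
  obtain ⟨k, rfl⟩ : ∃ k, n = n1 + k := ⟨n - n1, by omega⟩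
  have hk : n1 + k - n1 = k := by omega
  rw [hk]
  have hkn : ((n1 + k : ℕ) : ℝ) ≤ 2 * k := by
    have : n1 + k ≤ 2 * k := by omega
    exact_mod_cast this
  have hw : ∀ j : ℕ, hh ((j + 1) * m) - hh (j * m) = hh m ∨
      hh ((j + 1) * m) - hh (j * m) = hh m + 1 := by
    intro j
    have h1 := hh_add_ge (j * m) m
    have h2 := hh_add_le (j * m) m
    have e : (j + 1) * m = j * m + m := by ring
    rw [e]; omega
  have hfac : ∀ j : ℕ, fac x m j ≤ f (th (j * m)) := by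
    intro j
    have p1 := EE_nonneg (fun _ => x) (fun _ => x) hpar hpar m (hh m) (th (j * m))
    have p2 := EE_nonneg (fun _ => x) (fun _ => x) hpar hpar m (hh m + 1) (th (j * m))
    rcases hw j with h | h
    · rw [fac, h, hf]; simp only; linarith
    · rw [fac, h, hf]; simp only; linarith
  have hsum : ∑ i ∈ range k, fac x m (n1 + i) ≤ ((n1 + k : ℕ) : ℝ) * (60 * C1 + 1) := by
    have h1 : ∑ i ∈ range k, fac x m (n1 + i) ≤ ∑ i ∈ range (n1 + k), f (th (i * m)) := by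
      rw [sum_range_add]
      have h2 : ∑ i ∈ range k, fac x m (n1 + i) ≤ ∑ i ∈ range k, f (th ((n1 + i) * m)) :=
        sum_le_sum fun i _ => hfac _
      have h3 : 0 ≤ ∑ i ∈ range n1, f (th (i * m)) := sum_nonneg fun i _ => hf0 _
      linarith
    refine h1.trans ((hn0 _ hnn0).trans ?_)
    apply mul_le_mul_of_nonneg_left _ (Nat.cast_nonneg _)
    linarith
  have hprod : ∏ i ∈ range k, (5 * fac x m (n1 + i)) ≤ A ^ k := by
    apply prod_le_of_sum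
    · intro i
      have := fac_nonneg EE_nonneg hx hx1 m (n1 + i)
      linarith
    · linarith
    · rw [← mul_sum]
      have : (0 : ℝ) ≤ 60 * C1 + 1 := by linarith
      rw [hA]
      nlinarith
  have hmain := block_prod EE_nonneg block_upper x hx hx1 m n1 k Y Z
  rw [prod_mul_distrib, prod_pow] at hmain
  refine hmain.trans ?_
  have hexp := exp_part x hx m n1 k
  have hAk : A ^ k * 3 ≤ (3 * A) ^ (n1 + k) := by
    rw [mul_pow]
    have h1 : A ^ k ≤ A ^ (n1 + k) := pow_le_pow_right₀ hA1 (by omega)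
    have h2 : (3 : ℝ) ≤ 3 ^ (n1 + k) := by
      calc (3 : ℝ) = 3 ^ 1 := by norm_num
        _ ≤ 3 ^ (n1 + k) := pow_le_pow_right₀ (by norm_num) hn1'
    have h4 : (0 : ℝ) ≤ A ^ (n1 + k) := pow_nonneg (by linarith) _
    calc A ^ k * 3 ≤ A ^ (n1 + k) * 3 ^ (n1 + k) := mul_le_mul h1 h2 (by norm_num) h4
      _ = 3 ^ (n1 + k) * A ^ (n1 + k) := mul_comm _ _
  have hnn : (0 : ℝ) ≤ ((1 + x) / 2) ^ (k * m) *
      (1 + x⁻¹ + x⁻¹ ^ 2) ^ (hh ((n1 + k) * m) - hh (n1 * m)) := by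
    have hx0 : 0 < x := by linarith
    positivity
  calc _ ≤ A ^ k * (((1 + x) / 2) ^ (k * m) *
        (1 + x⁻¹ + x⁻¹ ^ 2) ^ (hh ((n1 + k) * m) - hh (n1 * m))) :=
        mul_le_mul_of_nonneg_right hprod hnn
    _ ≤ A ^ k * (3 * (2 : ℝ) ^ (((k * m : ℕ) : ℝ) * H x)) :=
        mul_le_mul_of_nonneg_left hexp (by positivity)
    _ = (A ^ k * 3) * (2 : ℝ) ^ (((k * m : ℕ) : ℝ) * H x) := by ring
    _ ≤ _ := mul_le_mul_of_nonneg_right hAk (by positivity)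

end Pool.Agent.Helper9.EX
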